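import Mathlib
import Pool.Agent.TH559.LE.Red

/-!
# List edge colouring of a graph whose edges are owned by their ends, few by each vertex
-/

set_option autoImplicit false

namespace Pool.Agent.D0H55.TE

open Finset Pool.Agent.TH559.LE

open Classical in
/-- If each edge is owned by one of its ends, and each vertex owns at most `a` edges, then a graph with
at least one edge has a vertex of degree between `1` and `2 a`. -/
theorem exists_low {V : Type} [Fintype V] (R : SimpleGraph V) (own : V → V → Prop) (a : ℕ)
    (hown : ∀ v w, R.Adj v w → own v w ∨ own w v)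
    (ha : ∀ v, (univ.filter (fun w => R.Adj v w ∧ own v w)).card ≤ a)
    (hne : ∃ v w, R.Adj v w) :
    ∃ u v, R.Adj u v ∧ dg R u ≤ 2 * a := by
  by_contra hcon
  push Not at hcon
  set S : Finset V := univ.filter (fun v => ∃ w, R.Adj v w) with hS
  have hSne : S.Nonempty := by
    obtain ⟨v, w, h⟩ := hne
    exact ⟨v, by rw [hS, mem_filter]; exact ⟨mem_univ _, w, h⟩⟩
  have hdeg : ∀ v ∈ S, 2 * a + 1 ≤ dg R v := by
    intro v hv
    rw [hS, mem_filter] at hv
    obtain ⟨-, w, hw⟩ := hv
    exact hcon v w hw
  have h1 : S.card * (2 * a + 1) ≤ ∑ v ∈ S, dg R v := by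
    rw [← smul_eq_mul]
    exact card_nsmul_le_sum _ _ _ hdeg
  have h2 : ∀ v, dg R v ≤ (univ.filter (fun w => R.Adj v w ∧ own v w)).card
      + (univ.filter (fun w => R.Adj w v ∧ own w v)).card := by
    intro v
    rw [dg_eq]
    refine le_trans ?_ (card_union_le _ _)
    refine card_le_card ?_
    intro w hw
    rw [mem_filter] at hw
    rw [mem_union, mem_filter, mem_filter]
    rcases hown v w hw.2 with h | h
    · exact Or.inl ⟨mem_univ _, hw.2, h⟩
    · exact Or.inr ⟨mem_univ _, hw.2.symm, h⟩
  have h3 : ∑ v ∈ S, (univ.filter (fun w => R.Adj v w ∧ own v w)).card ≤ S.card * a := by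
    rw [← smul_eq_mul]
    exact sum_le_card_nsmul _ _ _ (fun v _ => ha v)
  have h4 : ∑ v ∈ S, (univ.filter (fun w => R.Adj w v ∧ own w v)).card ≤ S.card * a := by
    calc ∑ v ∈ S, (univ.filter (fun w => R.Adj w v ∧ own w v)).card
        ≤ ∑ v, (univ.filter (fun w => R.Adj w v ∧ own w v)).card :=
          sum_le_sum_of_subset (subset_univ _)
      _ = ∑ v, ∑ w, (if R.Adj w v ∧ own w v then 1 else 0) := by
          refine sum_congr rfl fun v _ => ?_
          rw [card_filter]
      _ = ∑ w, ∑ v, (if R.Adj w v ∧ own w v then 1 else 0) := sum_comm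
      _ = ∑ w, (univ.filter (fun v => R.Adj w v ∧ own w v)).card := by
          refine sum_congr rfl fun v _ => ?_
          rw [card_filter]
      _ = ∑ w ∈ S, (univ.filter (fun v => R.Adj w v ∧ own w v)).card := by
          symm
          refine sum_subset (subset_univ _) ?_
          intro w _ hw
          rw [card_eq_zero, filter_eq_empty_iff]
          intro v _ hv
          exact hw (by rw [hS, mem_filter]; exact ⟨mem_univ _, v, hv.1⟩)
      _ ≤ S.card * a := h3
  have h5 : ∑ v ∈ S, dg R v ≤ S.card * a + S.card * a := by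
    refine (sum_le_sum fun v _ => h2 v).trans ?_
    rw [sum_add_distrib]
    exact Nat.add_le_add h3 h4
  have h6 : 0 < S.card := hSne.card_pos
  have h7 : S.card * (2 * a + 1) = S.card * a + S.card * a + S.card := by ring
  omega

open Classical in
/-- List edge colouring of such a graph from lists of at least `2 a + b - 1` colours, `b` a bound for
the degrees. -/
theorem list_own {V : Type} [Fintype V] (R : SimpleGraph V) (own : V → V → Prop) (a b : ℕ)
    (hown : ∀ v w, R.Adj v w → own v w ∨ own w v)
    (ha : ∀ v, (univ.filter (fun w => R.Adj v w ∧ own v w)).card ≤ a)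
    (hb : ∀ v, dg R v ≤ b) (L : Sym2 V → Finset ℕ)
    (hL : ∀ u v, R.Adj u v → 2 * a + b ≤ (L s(u, v)).card + 1) :
    ∃ c, Ok R L c := by
  have key : ∀ n : ℕ, ∀ A : SimpleGraph V, A ≤ R → ∑ v, dg A v ≤ n → ∃ c, Ok A L c := by
    intro n
    induction n with
    | zero =>
      intro A _ hA0
      have hno : ∀ u v, ¬ A.Adj u v := by
        intro u v huv
        have h1 : dg A u = 0 := by
          have := single_le_sum (f := fun v => dg A v) (fun _ _ => Nat.zero_le _) (mem_univ u)
          omega
        rw [dg_eq, card_eq_zero, filter_eq_empty_iff] at h1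
        exact h1 (mem_univ v) huv
      exact ⟨fun _ => 0, fun u v h => absurd h (hno u v), fun u v _ h => absurd h (hno u v)⟩
    | succ n ih =>
      intro A hAR hAn
      by_cases hne : ∃ v w, A.Adj v w
      · obtain ⟨u, v, huv, hu⟩ := exists_low A own a (fun v w h => hown v w (hAR h))
          (fun v => (card_le_card (by
            intro w hw
            rw [mem_filter] at hw ⊢
            exact ⟨hw.1, hAR hw.2.1, hw.2.2⟩)).trans (ha v)) hne
        set A' : SimpleGraph V := A.deleteEdges {s(u, v)} with hA'
        have hle : A' ≤ A := SimpleGraph.deleteEdges_le _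
        have hadj : ∀ x y, A.Adj x y → ¬ A'.Adj x y → s(x, y) = s(u, v) := by
          intro x y h1 h2
          rw [hA', SimpleGraph.deleteEdges_adj] at h2
          by_contra h3
          exact h2 ⟨h1, by simpa using h3⟩
        have hn : ¬ A'.Adj u v := by
          intro h
          rw [hA', SimpleGraph.deleteEdges_adj] at h
          exact h.2 rfl
        have hlu : dg A' u < dg A u := dg_lt hle huv hn
        have hlv : dg A' v < dg A v := dg_lt hle huv.symm (fun h => hn h.symm)
        have hsum : ∑ w, dg A' w < ∑ w, dg A w :=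
          sum_lt_sum (fun w _ => dg_mono hle w) ⟨u, mem_univ _, hlu⟩
        obtain ⟨c, hc⟩ := ih A' (hle.trans hAR) (by omega)
        refine ext A' A hle (fun w => w = u) ?_ L ?_ c hc
        · intro x y h1 h2
          have h3 := hadj x y h1 h2
          rw [Sym2.eq_iff] at h3
          rcases h3 with ⟨rfl, rfl⟩ | ⟨rfl, rfl⟩
          · simp [h1.ne']
          · simp [h1.ne]
        · intro x y h1 h2
          have h3 := hadj x y h1 h2
          have h4 := hL x y (hAR h1)
          have h5 := (dg_mono hAR v).trans (hb v)
          rw [Sym2.eq_iff] at h3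
          rcases h3 with ⟨rfl, rfl⟩ | ⟨rfl, rfl⟩
          · omega
          · omega
      · push Not at hne
        exact ⟨fun _ => 0, fun u v h => absurd h (hne u v), fun u v _ h => absurd h (hne u v)⟩
  exact key _ R le_rfl le_rfl

end Pool.Agent.D0H55.TE
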