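import Mathlib

/-!
# `n (m + 1) ^ k ≤ k!` for some `k` of the order `log n / log log n`
-/

set_option autoImplicit false

namespace Pool.Agent.D0H55.TE

open Filter Topology Real

theorem exists_k (m : ℕ) (ε : ℝ) (hε : 0 < ε) :
    ∀ᶠ n : ℕ in atTop, ∃ k : ℕ, 0 < k ∧ n * (m + 1) ^ k ≤ k.factorial ∧
      (k : ℝ) + 5 * m + 3 ≤ (1 + ε) * (log n / log (log n)) := by
  have hx : Tendsto (fun n : ℕ => log (n : ℝ)) atTop atTop :=
    tendsto_log_atTop.comp tendsto_natCast_atTop_atTop
  have hy : Tendsto (fun n : ℕ => log (log (n : ℝ))) atTop atTop := tendsto_log_atTop.comp hx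
  have hq : Tendsto (fun x : ℝ => log x / x) atTop (𝓝 0) := by
    have := Real.isLittleO_log_id_atTop
    exact this.tendsto_div_nhds_zero
  -- `(log y + c) / y → 0`
  set c : ℝ := 1 + log (m + 1) with hc
  have hc0 : 0 ≤ c := by
    have : (0:ℝ) ≤ log (m + 1) := Real.log_nonneg (by linarith [Nat.cast_nonneg (α := ℝ) m])
    linarith
  have h1 : Tendsto (fun y : ℝ => (log y + c) / y) atTop (𝓝 0) := by
    have h2 : Tendsto (fun y : ℝ => c / y) atTop (𝓝 0) := tendsto_const_nhds.div_atTop tendsto_id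
    have h3 := hq.add h2
    rw [add_zero] at h3
    exact h3.congr fun y => (add_div _ _ _).symm
  set δ : ℝ := (ε / 4) / (1 + ε / 4) with hδ
  have hδ0 : 0 < δ := by positivity
  have h2 : ∀ᶠ n : ℕ in atTop, (log (log (log (n:ℝ))) + c) / log (log (n:ℝ)) < δ :=
    hy.eventually (h1.eventually_lt_const hδ0)
  -- `log x / x` is small
  set η : ℝ := min (ε / 4) (ε / (2 * (5 * m + 3))) with hη
  have hη0 : 0 < η := by
    rw [hη]
    positivity
  have h3 : ∀ᶠ n : ℕ in atTop, log (log (n:ℝ)) / log (n:ℝ) < η :=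
    hx.eventually (hq.eventually_lt_const hη0)
  filter_upwards [h2, h3, hx.eventually_gt_atTop 1, hy.eventually_gt_atTop 1,
    eventually_gt_atTop 0] with n e2 e3 ex ey hn0
  set x : ℝ := log (n:ℝ) with hxd
  set y : ℝ := log x with hyd
  have hx0 : 0 < x := by linarith
  have hy0 : 0 < y := by linarith
  set q : ℝ := x / y with hqd
  have hq0 : 0 < q := div_pos hx0 hy0
  have hqη : 1 < η * q := by
    rw [div_lt_iff₀ hx0] at e3
    rw [hqd, ← mul_div_assoc, lt_div_iff₀ hy0]
    linarith
  have hη1 : η ≤ ε / 4 := min_le_left _ _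
  have hη2 : η ≤ ε / (2 * (5 * m + 3)) := min_le_right _ _
  have hA : 1 < ε / 4 * q := lt_of_lt_of_le hqη (mul_le_mul_of_nonneg_right hη1 hq0.le)
  have hB : (5 * m + 3 : ℝ) ≤ ε / 2 * q := by
    have h4 : 1 < ε / (2 * (5 * m + 3)) * q :=
      lt_of_lt_of_le hqη (mul_le_mul_of_nonneg_right hη2 hq0.le)
    have h5 : (0:ℝ) < 2 * (5 * m + 3) := by positivity
    rw [div_mul_eq_mul_div, lt_div_iff₀ h5] at h4
    linarith
  set k : ℕ := ⌊(1 + ε / 2) * q⌋₊ with hk
  have hk1 : (k : ℝ) ≤ (1 + ε / 2) * q := Nat.floor_le (by positivity)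
  have hk2 : (1 + ε / 4) * q ≤ k := by
    have h4 := Nat.lt_floor_add_one ((1 + ε / 2) * q)
    rw [← hk] at h4
    nlinarith
  have hkpos : (0:ℝ) < k := lt_of_lt_of_le (by positivity) hk2
  refine ⟨k, by exact_mod_cast hkpos, ?_, ?_⟩
  · -- the factorial
    have h4 : (k:ℝ) ^ k / (k.factorial : ℝ) ≤ exp k := Real.pow_div_factorial_le_exp (k:ℝ) hkpos.le k
    have hfac : (0:ℝ) < k.factorial := by exact_mod_cast k.factorial_pos
    rw [div_le_iff₀ hfac] at h4
    have h5 : (k:ℝ) * log k ≤ k + log (k.factorial : ℝ) := by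
      have h6 := Real.log_le_log (by positivity) h4
      rw [Real.log_pow, Real.log_mul (exp_pos _).ne' hfac.ne', Real.log_exp] at h6
      exact h6
    have hlogk : y - log y ≤ log k := by
      have h6 : q ≤ k := by nlinarith
      have h7 := Real.log_le_log hq0 h6
      rw [hqd, Real.log_div hx0.ne' hy0.ne'] at h7
      exact h7
    have hmain : x ≤ k * (log k - c) := by
      have e2' : log y + c < δ * y := by
        rwa [div_lt_iff₀ hy0] at e2
      have h6 : (1 - δ) * y ≤ log k - c := by linarith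
      have h7 : (1 + ε / 4) * (1 - δ) = 1 := by
        rw [hδ]
        field_simp
        ring
      have h8 : 0 ≤ (1 - δ) * y := by
        have : 0 < 1 - δ := by
          by_contra h9
          have h10 : (1 + ε / 4) * (1 - δ) ≤ 0 :=
            mul_nonpos_of_nonneg_of_nonpos (by positivity) (by linarith)
          linarith
        positivity
      calc x = q * y := by rw [hqd]; field_simp
        _ = ((1 + ε / 4) * q) * ((1 - δ) * y) := by
          have : ((1 + ε / 4) * q) * ((1 - δ) * y) = ((1 + ε / 4) * (1 - δ)) * (q * y) := by ring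
          rw [this, h7, one_mul]
        _ ≤ k * (log k - c) := mul_le_mul hk2 h6 h8 hkpos.le
    have hn : (0:ℝ) < n := by exact_mod_cast hn0
    have hm : (0:ℝ) < (m:ℝ) + 1 := by positivity
    have h6 : log ((n:ℝ) * ((m:ℝ) + 1) ^ k) ≤ log (k.factorial : ℝ) := by
      rw [Real.log_mul hn.ne' (by positivity), Real.log_pow]
      have h7 : k * (log k - c) = k * log k - k - k * log (m + 1) := by
        rw [hc]
        ring
      rw [h7] at hmain
      linarith
    have h7 : (n:ℝ) * ((m:ℝ) + 1) ^ k ≤ (k.factorial : ℝ) :=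
      (Real.log_le_log_iff (by positivity) hfac).1 h6
    exact_mod_cast h7
  · have h5 : (1 + ε) * q = (1 + ε / 2) * q + ε / 2 * q := by ring
    rw [h5]
    linarith

end Pool.Agent.D0H55.TE
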