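import Mathlib

/-!
# Permutations and random matchings: a counting lemma
-/

set_option autoImplicit false

namespace Pool.Agent.D0H55.TE

open Finset Equiv

/-- The number of the permutations with prescribed values on `s`. -/
theorem card_presc {N : ℕ} (s : Finset (Fin N)) (a : Fin N → Fin N) :
    (univ.filter (fun π : Perm (Fin N) => ∀ i ∈ s, π i = a i)).card ≤ (N - s.card).factorial := by
  classical
  have hc : (univ.filter (fun f : Perm (Fin N) => ∀ i, ¬ (i ∉ s) → f i = i)).card
      = (N - s.card).factorial := by
    have e := Equiv.Perm.subtypeEquivSubtypePerm (fun i : Fin N => i ∉ s)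
    rw [← Fintype.card_subtype, ← Fintype.card_congr e, Fintype.card_perm]
    congr 1
    rw [Fintype.card_subtype_compl, Fintype.card_fin, Fintype.card_coe]
  by_cases h : ∃ π0 : Perm (Fin N), ∀ i ∈ s, π0 i = a i
  · obtain ⟨π0, h0⟩ := h
    rw [← hc]
    refine Finset.card_le_card_of_injOn (fun π => π0⁻¹ * π) ?_ ?_
    · intro π hπ
      simp only [coe_filter, mem_univ, true_and, Set.mem_setOf_eq] at hπ ⊢
      intro i hi
      have hi' : i ∈ s := by simpa using hi
      rw [Perm.mul_apply, hπ i hi', ← h0 i hi']
      simp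
    · intro π _ ρ _ he
      exact mul_left_cancel he
  · have : (univ.filter (fun π : Perm (Fin N) => ∀ i ∈ s, π i = a i)) = ∅ := by
      rw [filter_eq_empty_iff]
      intro π _ h'
      exact h ⟨π, h'⟩
    rw [this, card_empty]
    exact Nat.zero_le _

/-- The permutations for which each of the elements of `T` gets, at its place `p`, a value from its
list `A`; the places of the elements of `T` are different. -/
theorem card_lists {V : Type} [DecidableEq V] {N : ℕ} (T : Finset V) (p : V → Fin N)
    (hp : ∀ v ∈ T, ∀ w ∈ T, p v = p w → v = w) (A : V → Finset (Fin N)) (r : ℕ)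
    (hA : ∀ v ∈ T, (A v).card ≤ r) :
    (univ.filter (fun π : Perm (Fin N) => ∀ v ∈ T, π (p v) ∈ A v)).card
      ≤ r ^ T.card * (N - T.card).factorial := by
  classical
  have hcard : (T.image p).card = T.card := by
    rw [card_image_iff]
    intro v hv w hw h
    exact hp v hv w hw h
  set P : Finset (∀ v ∈ T, Fin N) := T.pi (fun v => A v) with hP
  set q : (∀ v ∈ T, Fin N) → Fin N → Fin N := fun a i =>
    if h : ∃ v, ∃ _ : v ∈ T, p v = i then a h.choose h.choose_spec.choose else i with hq
  have hqv : ∀ (a : ∀ v ∈ T, Fin N) (v : V) (hv : v ∈ T), q a (p v) = a v hv := by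
    intro a v hv
    have h : ∃ w, ∃ _ : w ∈ T, p w = p v := ⟨v, hv, rfl⟩
    have h1 : h.choose = v := hp _ h.choose_spec.choose _ hv h.choose_spec.choose_spec
    simp only [hq]
    rw [dif_pos h]
    have : ∀ (w : V) (hw : w ∈ T), w = v → a w hw = a v hv := by
      rintro w hw rfl
      rfl
    exact this _ _ h1
  have hsub : (univ.filter (fun π : Perm (Fin N) => ∀ v ∈ T, π (p v) ∈ A v)) ⊆
      P.biUnion (fun a => univ.filter (fun π : Perm (Fin N) => ∀ i ∈ T.image p, π i = q a i)) := by
    intro π hπ
    rw [mem_filter] at hπ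
    rw [mem_biUnion]
    refine ⟨fun v _ => π (p v), ?_, ?_⟩
    · rw [hP, mem_pi]
      intro v hv
      exact hπ.2 v hv
    · rw [mem_filter]
      refine ⟨mem_univ _, ?_⟩
      intro i hi
      obtain ⟨v, hv, rfl⟩ := mem_image.1 hi
      exact (hqv (fun v _ => π (p v)) v hv).symm
  refine (card_le_card hsub).trans ?_
  refine card_biUnion_le.trans ?_
  refine (sum_le_card_nsmul _ _ ((N - T.card).factorial) ?_).trans ?_
  · intro a _
    have := card_presc (T.image p) (q a)
    rwa [hcard] at this
  · rw [smul_eq_mul]
    refine Nat.mul_le_mul_right _ ?_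
    rw [hP, card_pi]
    refine (prod_le_pow_card _ _ r ?_)
    intro v hv
    exact hA v hv

/-- Random permutations: if `n r ^ k ≤ k!`, there is a permutation such that for each of the `n`
vertices `v` fewer than `k` of its at most `D` elements `w` get, at their different places `p v w`, a
value from the list `A w`. -/
theorem exists_perm {V : Type} [Fintype V] [DecidableEq V] (D k r : ℕ) (hk0 : 0 < k)
    (hk : Fintype.card V * r ^ k ≤ k.factorial) (S : V → Finset V) (hS : ∀ v, (S v).card ≤ D)
    (p : V → V → Fin (D + 1)) (hp : ∀ v, ∀ w ∈ S v, ∀ w' ∈ S v, p v w = p v w' → w = w')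
    (A : V → Finset (Fin (D + 1))) (hA : ∀ v, (A v).card ≤ r) :
    ∃ π : Perm (Fin (D + 1)), ∀ v, ((S v).filter (fun w => π (p v w) ∈ A w)).card < k := by
  classical
  by_contra hcon
  push Not at hcon
  -- bad permutations of `v`
  set B : V → Finset (Perm (Fin (D + 1))) := fun v =>
    univ.filter (fun π => k ≤ ((S v).filter (fun w => π (p v w) ∈ A w)).card) with hB
  have hBv : ∀ v, (B v).card ≤ (D.choose k) * (r ^ k * (D + 1 - k).factorial) := by
    intro v
    have hsub : B v ⊆ ((S v).powersetCard k).biUnion (fun T =>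
        univ.filter (fun π : Perm (Fin (D + 1)) => ∀ w ∈ T, π (p v w) ∈ A w)) := by
      intro π hπ
      rw [hB, mem_filter] at hπ
      obtain ⟨T, hT1, hT2⟩ := exists_subset_card_eq hπ.2
      rw [mem_biUnion]
      refine ⟨T, mem_powersetCard.2 ⟨hT1.trans (filter_subset _ _), hT2⟩, ?_⟩
      rw [mem_filter]
      refine ⟨mem_univ _, ?_⟩
      intro w hw
      exact (mem_filter.1 (hT1 hw)).2
    refine (card_le_card hsub).trans (card_biUnion_le.trans ?_)
    refine (sum_le_card_nsmul _ _ (r ^ k * (D + 1 - k).factorial) ?_).trans ?_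
    · intro T hT
      obtain ⟨hT1, hT2⟩ := mem_powersetCard.1 hT
      have := card_lists T (p v) (fun w hw w' hw' => hp v w (hT1 hw) w' (hT1 hw')) A r
        (fun w _ => hA w)
      rw [hT2] at this
      refine (card_le_card ?_).trans this
      intro π hπ
      simp only [mem_filter, mem_univ, true_and] at hπ ⊢
      exact hπ
    · rw [smul_eq_mul, card_powersetCard]
      exact Nat.mul_le_mul_right _ (Nat.choose_le_choose k (hS v))
  have hall : (univ : Finset (Perm (Fin (D + 1)))) ⊆ (univ : Finset V).biUnion B := by
    intro π _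
    obtain ⟨v, hv⟩ := hcon π
    rw [mem_biUnion]
    refine ⟨v, mem_univ _, ?_⟩
    rw [hB, mem_filter]
    exact ⟨mem_univ _, hv⟩
  have h1 : (D + 1).factorial ≤ Fintype.card V * ((D.choose k) * (r ^ k * (D + 1 - k).factorial)) := by
    have h2 := card_le_card hall
    rw [card_univ, Fintype.card_perm, Fintype.card_fin] at h2
    refine h2.trans (card_biUnion_le.trans ?_)
    refine (sum_le_card_nsmul _ _ _ (fun v _ => hBv v)).trans ?_
    rw [smul_eq_mul, card_univ]
  rcases Nat.lt_or_ge D k with hDk | hDk
  · rw [Nat.choose_eq_zero_of_lt hDk] at h1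
    simp at h1
    exact (Nat.factorial_ne_zero _) h1
  · have h3 : D.choose k * (k.factorial * (D - k).factorial) = D.factorial := by
      rw [← mul_assoc]
      exact Nat.choose_mul_factorial_mul_factorial hDk
    have h4 : (D + 1 - k).factorial = (D + 1 - k) * (D - k).factorial := by
      have : D + 1 - k = (D - k) + 1 := by omega
      rw [this, Nat.factorial_succ]
    have h5 : Fintype.card V * ((D.choose k) * (r ^ k * (D + 1 - k).factorial))
        ≤ (D + 1 - k) * D.factorial := by
      rw [h4, ← h3]
      calc Fintype.card V * ((D.choose k) * (r ^ k * ((D + 1 - k) * (D - k).factorial)))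
          = (Fintype.card V * r ^ k) * ((D + 1 - k) * (D.choose k * (D - k).factorial)) := by ring
        _ ≤ k.factorial * ((D + 1 - k) * (D.choose k * (D - k).factorial)) :=
            Nat.mul_le_mul_right _ hk
        _ = (D + 1 - k) * (D.choose k * (k.factorial * (D - k).factorial)) := by ring
    have h6 : (D + 1 - k) * D.factorial < (D + 1) * D.factorial :=
      Nat.mul_lt_mul_of_pos_right (by omega) (Nat.factorial_pos D)
    rw [Nat.factorial_succ] at h1
    omega

end Pool.Agent.D0H55.TE
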