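import Mathlib
import Pool.Agent.D0H55.TE.Perm
import Pool.Agent.D0H55.TE.Deg
import Pool.Agent.R61.TotExt
import Pool.Agent.Q6.CI.Vizing

/-!
# Extending total colourings of subgraphs of bounded degree with few additional colours
-/

set_option autoImplicit false

namespace Pool.Agent.D0H55.TE

open Finset Pool.Agent.TH559.LE
open Pool.Agent.R61.TotExt (IsTotal vext)

open Classical in
/-- Let `n (m + 1) ^ k ≤ k!`. A total colouring of a set `W` of vertices and of a subgraph `H` of maximum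
degree at most `m` with ends in `W`, proper with respect to `G`, extends to `G`, if the number of the
colours is at least `D + k + 5 m + 3`. -/
theorem main {V : Type} [Fintype V] (G H : SimpleGraph V) (W : Set V) (D m k K : ℕ)
    (hD : ∀ v, (G.neighborSet v).ncard ≤ D) (hHG : H ≤ G) (hHW : ∀ u v, H.Adj u v → u ∈ W)
    (hm : ∀ v, (H.neighborSet v).ncard ≤ m) (hk0 : 0 < k)
    (hk : Fintype.card V * (m + 1) ^ k ≤ k.factorial) (hK : D + k + 5 * m + 3 ≤ K)
    (f0 : V → Fin K) (g0 : Sym2 V → Fin K)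
    (hf0 : ∀ u ∈ W, ∀ v ∈ W, G.Adj u v → f0 u ≠ f0 v)
    (hg0 : ∀ u v w, H.Adj u v → H.Adj u w → v ≠ w → g0 s(u, v) ≠ g0 s(u, w))
    (hfg : ∀ u v, H.Adj u v → g0 s(u, v) ≠ f0 u) :
    ∃ (f : V → Fin K) (g : Sym2 V → Fin K), IsTotal G f g ∧ (∀ u ∈ W, f u = f0 u) ∧
      ∀ u v, H.Adj u v → g s(u, v) = g0 s(u, v) := by
  have hdD : ∀ v, dg G v ≤ D := hD
  obtain ⟨f, hf1, hf2⟩ := vext G f0 (fun v => v ∈ W) (fun u v hu hv => hf0 u hu v hv)
    (fun v => lt_of_le_of_lt (hdD v) (by omega))
  set F : SimpleGraph V := G \ H with hF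
  have hFG : F ≤ G := sdiff_le
  have hFadj : ∀ u v, F.Adj u v ↔ G.Adj u v ∧ ¬ H.Adj u v := by
    intro u v
    rw [hF, SimpleGraph.sdiff_adj]
  obtain ⟨M, hM⟩ : Pool.Q11.TwoEnd.EC F (D + 1) := by
    refine Pool.Q6.CI.vizing ?_
    intro v
    have h1 : (univ.filter (fun w => F.Adj v w)).card ≤ D := by
      rw [← dg_eq]
      exact (dg_mono hFG v).trans (hdD v)
    unfold Pool.Q6.CI.dg
    refine le_trans (card_le_card ?_) h1
    intro w hw
    simp only [mem_filter, mem_univ, true_and] at hw ⊢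
    exact hw
  -- the forbidden colours at a vertex
  set A : V → Finset ℕ := fun v => insert (f v).1
    ((univ.filter (fun x => H.Adj v x)).image (fun x => (g0 s(v, x)).1)) with hA
  have hAf : ∀ v, (f v).1 ∈ A v := fun v => mem_insert_self _ _
  have hAg : ∀ v x, H.Adj v x → (g0 s(v, x)).1 ∈ A v := by
    intro v x h
    exact mem_insert_of_mem (mem_image.2 ⟨x, by simpa using h, rfl⟩)
  have hAc : ∀ v, (A v).card ≤ m + 1 := by
    intro v
    refine (card_insert_le _ _).trans ?_
    have h1 : (univ.filter (fun x => H.Adj v x)).card ≤ m := by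
      rw [← dg_eq]
      exact hm v
    have h2 := card_image_le (s := univ.filter (fun x => H.Adj v x))
      (f := fun x => (g0 s(v, x)).1)
    omega
  set A' : V → Finset (Fin (D + 1)) := fun v => univ.filter (fun i => i.1 ∈ A v) with hA'
  have hA'c : ∀ v, (A' v).card ≤ m + 1 := by
    intro v
    refine le_trans ?_ (hAc v)
    refine card_le_card_of_injOn (fun i => i.1) ?_ ?_
    · intro i hi
      have := (mem_filter.1 (mem_coe.1 hi)).2
      exact mem_coe.2 this
    · intro i _ j _ h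
      exact Fin.ext h
  set S : V → Finset V := fun v => univ.filter (fun w => F.Adj v w) with hS
  have hSc : ∀ v, (S v).card ≤ D := by
    intro v
    have h1 : (univ.filter (fun w => F.Adj v w)).card ≤ D := by
      rw [← dg_eq]
      exact (dg_mono hFG v).trans (hdD v)
    exact h1
  set p : V → V → Fin (D + 1) := fun v w =>
    if h : M v w < D + 1 then ⟨M v w, h⟩ else 0 with hp
  have hpv : ∀ v w, F.Adj v w → (p v w).1 = M v w := by
    intro v w h
    simp only [hp]
    rw [dif_pos (hM.lt v w h)]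
  have hpinj : ∀ v, ∀ w ∈ S v, ∀ w' ∈ S v, p v w = p v w' → w = w' := by
    intro v w hw w' hw' h
    have h1 := (mem_filter.1 hw).2
    have h2 := (mem_filter.1 hw').2
    refine hM.inj v w w' h1 h2 ?_
    rw [← hpv v w h1, ← hpv v w' h2, h]
  obtain ⟨π, hπ⟩ := exists_perm D k (m + 1) hk0 hk S hSc p hpinj A' hA'c
  set b : V → V → ℕ := fun v w => (π (p v w)).1 with hb
  have hblt : ∀ v w, b v w < D + 1 := fun v w => (π (p v w)).2
  have hbsymm : ∀ v w, F.Adj v w → b v w = b w v := by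
    intro v w h
    have h1 : p v w = p w v := by
      apply Fin.ext
      rw [hpv v w h, hpv w v h.symm, hM.symm v w h]
    simp only [hb, h1]
  have hbinj : ∀ v w w', F.Adj v w → F.Adj v w' → b v w = b v w' → w = w' := by
    intro v w w' h1 h2 h
    have h3 : p v w = p v w' := π.injective (Fin.ext h)
    exact hpinj v w (mem_filter.2 ⟨mem_univ _, h1⟩) w' (mem_filter.2 ⟨mem_univ _, h2⟩) h3
  -- the graph of the bad edges
  let R : SimpleGraph V :=
    { Adj := fun v w => F.Adj v w ∧ (b v w ∈ A v ∨ b v w ∈ A w)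
      symm := ⟨by
        rintro v w ⟨h1, h2⟩
        refine ⟨h1.symm, ?_⟩
        rw [← hbsymm v w h1]
        exact h2.symm⟩
      loopless := ⟨fun v h => F.loopless.irrefl v h.1⟩ }
  have hRadj : ∀ v w, R.Adj v w ↔ F.Adj v w ∧ (b v w ∈ A v ∨ b v w ∈ A w) := fun v w => Iff.rfl
  have hown : ∀ v w, R.Adj v w → b v w ∈ A v ∨ b w v ∈ A w := by
    intro v w h
    rw [← hbsymm v w h.1]
    exact h.2
  have ha : ∀ v, (univ.filter (fun w => R.Adj v w ∧ b v w ∈ A v)).card ≤ m + 1 := by
    intro v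
    refine le_trans ?_ (hAc v)
    refine card_le_card_of_injOn (fun w => b v w) ?_ ?_
    · intro w hw
      exact mem_coe.2 (mem_filter.1 (mem_coe.1 hw)).2.2
    · intro w hw w' hw' h
      exact hbinj v w w' (mem_filter.1 (mem_coe.1 hw)).2.1.1 (mem_filter.1 (mem_coe.1 hw')).2.1.1 h
  have hin : ∀ v, (univ.filter (fun w => F.Adj v w ∧ b v w ∈ A w)).card ≤ k - 1 := by
    intro v
    have h1 := hπ v
    have h2 : (univ.filter (fun w => F.Adj v w ∧ b v w ∈ A w)) ⊆
        (S v).filter (fun w => π (p v w) ∈ A' w) := by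
      intro w hw
      rw [mem_filter] at hw
      rw [mem_filter]
      refine ⟨mem_filter.2 ⟨mem_univ _, hw.2.1⟩, ?_⟩
      rw [hA', mem_filter]
      exact ⟨mem_univ _, hw.2.2⟩
    have h3 := card_le_card h2
    omega
  have hRdeg : ∀ v, dg R v ≤ m + k := by
    intro v
    have h1 : dg R v ≤ (univ.filter (fun w => R.Adj v w ∧ b v w ∈ A v)).card +
        (univ.filter (fun w => F.Adj v w ∧ b v w ∈ A w)).card := by
      rw [dg_eq]
      refine le_trans ?_ (card_union_le _ _)
      refine card_le_card ?_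
      intro w hw
      have hw' := (mem_filter.1 hw).2
      rw [mem_union, mem_filter, mem_filter]
      rcases hw'.2 with h | h
      · exact Or.inl ⟨mem_univ _, hw', h⟩
      · exact Or.inr ⟨mem_univ _, hw'.1, h⟩
    have h2 := ha v
    have h3 := hin v
    omega
  set L : Sym2 V → Finset ℕ := fun e => (Ico (D + 1) K).filter (fun γ => ∀ w ∈ e, γ ∉ A w) with hL
  have hLc : ∀ u v, R.Adj u v → 2 * (m + 1) + (m + k) ≤ (L s(u, v)).card + 1 := by
    intro u v huv
    have hbm : b u v ∈ A u ∪ A v := by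
      rw [mem_union]
      exact huv.2
    have h1 : ((A u ∪ A v).erase (b u v)).card ≤ 2 * m + 1 := by
      rw [card_erase_of_mem hbm]
      have := card_union_le (A u) (A v)
      have := hAc u
      have := hAc v
      omega
    have h2 : (Ico (D + 1) K) \ ((A u ∪ A v).erase (b u v)) ⊆ L s(u, v) := by
      intro γ hγ
      rw [mem_sdiff, mem_Ico, mem_erase, mem_union] at hγ
      rw [hL, mem_filter, mem_Ico]
      refine ⟨hγ.1, ?_⟩
      have hγb : γ ≠ b u v := by
        have := hblt u v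
        omega
      intro w hw hγw
      rw [Sym2.mem_iff] at hw
      rcases hw with rfl | rfl
      · exact hγ.2 ⟨hγb, Or.inl hγw⟩
      · exact hγ.2 ⟨hγb, Or.inr hγw⟩
    have h3 := card_le_card h2
    have h4 := le_card_sdiff ((A u ∪ A v).erase (b u v)) (Ico (D + 1) K)
    rw [Nat.card_Ico] at h4
    omega
  obtain ⟨c, hc1, hc2⟩ := list_own R (fun v w => b v w ∈ A v) (m + 1) (m + k) hown
    (fun v => (card_le_card (by
      intro w hw
      simp only [mem_filter, mem_univ, true_and] at hw ⊢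
      exact hw)).trans (ha v)) hRdeg L hLc
  -- the colour of an edge outside `H` and `R`
  set bs : Sym2 V → ℕ := fun e => b (Quot.out e).1 (Quot.out e).2 with hbs
  have hbsv : ∀ u v, F.Adj u v → bs s(u, v) = b u v := by
    intro u v h
    have h1 : s((Quot.out s(u, v)).1, (Quot.out s(u, v)).2) = s(u, v) := Quot.out_eq s(u, v)
    rw [Sym2.eq_iff] at h1
    simp only [hbs]
    rcases h1 with ⟨h1, h2⟩ | ⟨h1, h2⟩
    · rw [h1, h2]
    · rw [h1, h2, hbsymm v u h.symm]
  set gN : Sym2 V → ℕ := fun e => if e ∈ H.edgeSet then (g0 e).1 else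
    if e ∈ R.edgeSet then c e else bs e with hgN
  have g1 : ∀ u v, H.Adj u v → gN s(u, v) = (g0 s(u, v)).1 := by
    intro u v h
    simp only [hgN]
    rw [if_pos (by simpa using h)]
  have g2 : ∀ u v, R.Adj u v → gN s(u, v) = c s(u, v) := by
    intro u v h
    simp only [hgN]
    have hnot : ¬ H.Adj u v := ((hFadj u v).1 h.1).2
    rw [if_neg (by simpa using hnot), if_pos ((SimpleGraph.mem_edgeSet R).2 h)]
  have g3 : ∀ u v, F.Adj u v → ¬ R.Adj u v → gN s(u, v) = b u v := by
    intro u v h h'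
    simp only [hgN]
    have hnot : ¬ H.Adj u v := ((hFadj u v).1 h).2
    rw [if_neg (by simpa using hnot), if_neg (fun hh => h' ((SimpleGraph.mem_edgeSet R).1 hh)),
      hbsv u v h]
  have hcases : ∀ u v, G.Adj u v → H.Adj u v ∨ R.Adj u v ∨ (F.Adj u v ∧ ¬ R.Adj u v) := by
    intro u v h
    by_cases h1 : H.Adj u v
    · exact Or.inl h1
    · have h2 : F.Adj u v := (hFadj u v).2 ⟨h, h1⟩
      by_cases h3 : R.Adj u v
      · exact Or.inr (Or.inl h3)
      · exact Or.inr (Or.inr ⟨h2, h3⟩)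
  have hcmem : ∀ u v, R.Adj u v → (D + 1 ≤ c s(u, v) ∧ c s(u, v) < K) ∧ c s(u, v) ∉ A u := by
    intro u v h
    have h1 := hc1 u v h
    rw [hL, mem_filter, mem_Ico] at h1
    exact ⟨h1.1, h1.2 u (Sym2.mem_mk_left u v)⟩
  have hnotR : ∀ u v, F.Adj u v → ¬ R.Adj u v → b u v ∉ A u := by
    intro u v h1 h2 h3
    exact h2 ⟨h1, Or.inl h3⟩
  have glt : ∀ u v, G.Adj u v → gN s(u, v) < K := by
    intro u v h
    rcases hcases u v h with h | h | ⟨h, h'⟩
    · rw [g1 u v h]
      exact (g0 s(u, v)).2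
    · rw [g2 u v h]
      exact (hcmem u v h).1.2
    · rw [g3 u v h h']
      have := hblt u v
      omega
  have hK0 : 0 < K := by omega
  set g : Sym2 V → Fin K := fun e => if h : gN e < K then ⟨gN e, h⟩ else ⟨0, hK0⟩ with hg
  have gv : ∀ u v, G.Adj u v → (g s(u, v)).1 = gN s(u, v) := by
    intro u v h
    simp only [hg]
    rw [dif_pos (glt u v h)]
  refine ⟨f, g, ⟨fun u v h => hf2 u v h, ?_, ?_⟩, hf1, ?_⟩
  · intro u v w hv hw hvw heq
    have heq' : gN s(u, v) = gN s(u, w) := by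
      rw [← gv u v hv, ← gv u w hw, heq]
    rcases hcases u v hv with h1 | h1 | ⟨h1, h1'⟩ <;>
      rcases hcases u w hw with h2 | h2 | ⟨h2, h2'⟩
    · rw [g1 u v h1, g1 u w h2] at heq'
      exact hg0 u v w h1 h2 hvw (Fin.ext heq')
    · rw [g1 u v h1, g2 u w h2] at heq'
      exact (hcmem u w h2).2 (heq' ▸ hAg u v h1)
    · rw [g1 u v h1, g3 u w h2 h2'] at heq'
      exact hnotR u w h2 h2' (heq' ▸ hAg u v h1)
    · rw [g2 u v h1, g1 u w h2] at heq'
      exact (hcmem u v h1).2 (heq' ▸ hAg u w h2)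
    · rw [g2 u v h1, g2 u w h2] at heq'
      exact hc2 u v w h1 h2 hvw heq'
    · rw [g2 u v h1, g3 u w h2 h2'] at heq'
      have h3 := (hcmem u v h1).1.1
      have h4 := hblt u w
      omega
    · rw [g3 u v h1 h1', g1 u w h2] at heq'
      exact hnotR u v h1 h1' (heq' ▸ hAg u w h2)
    · rw [g3 u v h1 h1', g2 u w h2] at heq'
      have h3 := (hcmem u w h2).1.1
      have h4 := hblt u v
      omega
    · rw [g3 u v h1 h1', g3 u w h2 h2'] at heq'
      exact hvw (hbinj u v w h1 h2 heq')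
  · intro u v h heq
    have heq' : gN s(u, v) = (f u).1 := by
      rw [← gv u v h, heq]
    rcases hcases u v h with h1 | h1 | ⟨h1, h1'⟩
    · rw [g1 u v h1, hf1 u (hHW u v h1)] at heq'
      exact hfg u v h1 (Fin.ext heq')
    · rw [g2 u v h1] at heq'
      exact (hcmem u v h1).2 (heq' ▸ hAf u)
    · rw [g3 u v h1 h1'] at heq'
      exact hnotR u v h1 h1' (heq' ▸ hAf u)
  · intro u v h
    apply Fin.ext
    rw [gv u v (hHG h), g1 u v h]

end Pool.Agent.D0H55.TE
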